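import Mathlib
import Pool.Agent.H66.RegDesc

set_option autoImplicit false

/-- Regularity of `B / rad (p B)` does not descend to `A / p` along finite injective maps of
regular local rings of characteristic zero. -/
theorem Pool.Agent.Results.MP_f322fd_al.NoDescent.result :
    ∃ (A B : Type) (_ : CommRing A) (_ : CommRing B) (f : A →+* B) (p : Ideal A),
      IsRegularLocalRing A ∧ IsRegularLocalRing B ∧ CharZero A ∧ CharZero B ∧
      Function.Injective f ∧ f.Finite ∧ p.IsPrime ∧
      IsRegularLocalRing (B ⧸ (p.map f).radical) ∧ ¬ IsRegularLocalRing (A ⧸ p) :=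
  ⟨Pool.Agent.H66.RegDesc.A, Pool.Agent.H66.RegDesc.A, inferInstance, inferInstance,
    Pool.Agent.H66.RegDesc.ph, Pool.Agent.H66.RegDesc.p, inferInstance, inferInstance,
    inferInstance, inferInstance, Pool.Agent.H66.RegDesc.ph_inj, Pool.Agent.H66.RegDesc.ph_finite,
    inferInstance, Pool.Agent.H66.RegDesc.reg_B, Pool.Agent.H66.RegDesc.not_reg⟩
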